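import Mathlib
import Pool.Agent.NAdicCx.PartB2

/-!
# Accumulation points of the normalised N-adic complexity: the full classification

For `N ≥ 2`, assertion (a) holds if and only if `N` is a prime power, and assertion (b) holds
for every `N ≥ 2`.  In particular both assertions hold together exactly when `N` is a prime power.
-/

namespace Pool.Agent.Results.MP_8b2777_lc.Classification

open NAdicCx

/-- For every `N ≥ 2`: assertion (a) holds if and only if `N` is a prime power, and assertion (b)
holds. -/
theorem result : ∀ N : ℕ, 2 ≤ N → (AssertionA N ↔ IsPrimePow N) ∧ AssertionB N := by
  intro N hN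
  refine ⟨⟨fun h => ?_, fun h => assertionA_of_isPrimePow h⟩, assertionB hN⟩
  by_contra hpp
  exact not_assertionA hN hpp h

end Pool.Agent.Results.MP_8b2777_lc.Classification
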